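import Mathlib
import Pool.Agent.R177.Per.Def
import Pool.Agent.R177.Per.Graph
import Pool.Agent.R177.Per.Count
import Pool.Agent.R177.Per.Draw

/-!
# MP_6bdc24_co: graphs of large representativity with few peripheral cycles

The graph is the `N × N` grid on the torus, with `m` nested triangles drawn in one of the faces:
the vertices of the outermost triangle are joined to three corners of the face. Every cycle of it
which is induced and visits the triangles beyond the first one is one of the triangles or one of
the quadrangles between two consecutive triangles, so there are at most `2 ^ (N² + 3) + 4 m`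
peripheral cycles, but `N² + 3 m` vertices.
-/

open Pool.Agent.R177.Per

namespace Pool.Agent.Results.MP_6bdc24_co.FewPeripheral

open MGraph

variable {N m : ℕ}

lemma isSimple [NeZero N] (hN : 3 ≤ N) : (Gr N m).IsSimple := by
  obtain ⟨h20, h21, h10, hm0, hm1⟩ := two_ne (N := N) hN
  constructor
  · rintro (⟨x, y⟩ | ⟨x, y⟩ | ⟨i, k⟩ | ⟨i, k⟩) h
    · change Vx.grid x y = Vx.grid (x + 1) y at h
      injection h with h _
      exact h10 (by simpa using h.symm)
    · change Vx.grid x y = Vx.grid x (y + 1) at h
      injection h with _ h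
      exact h10 (by simpa using h.symm)
    · change Vx.lay i (k + 1) = Vx.lay i (k + 2) at h
      injection h with _ h
      revert h; revert k; decide
    · change node i.castSucc k = Vx.lay i k at h
      have := congrArg lev h
      rw [lev_node] at this
      simp [lev] at this
  · intro e e' u v h h'
    rcases u with ⟨x, y⟩ | ⟨i, j⟩
    · rcases v with ⟨x', y'⟩ | ⟨i, j⟩
      · have key : ∀ e : Ex N m, (Gr N m).Joins e (.grid x y) (.grid x' y') →
            (e = .hor x y ∧ x' = x + 1 ∧ y' = y) ∨ (e = .hor x' y' ∧ x = x' + 1 ∧ y = y') ∨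
            (e = .ver x y ∧ x' = x ∧ y' = y + 1) ∨ (e = .ver x' y' ∧ x = x' ∧ y = y' + 1) := by
          rintro (⟨a, b⟩ | ⟨a, b⟩ | ⟨i, k⟩ | ⟨i, k⟩) (⟨h1, h2⟩ | ⟨h1, h2⟩)
          · change Vx.grid a b = _ at h1
            change Vx.grid (a + 1) b = _ at h2
            injection h1 with h3 h4
            injection h2 with h5 h6
            subst h3 h4
            exact Or.inl ⟨rfl, h5.symm, h6.symm⟩
          · change Vx.grid a b = _ at h1
            change Vx.grid (a + 1) b = _ at h2
            injection h1 with h3 h4
            injection h2 with h5 h6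
            subst h3 h4
            exact Or.inr (Or.inl ⟨rfl, h5.symm, h6.symm⟩)
          · change Vx.grid a b = _ at h1
            change Vx.grid a (b + 1) = _ at h2
            injection h1 with h3 h4
            injection h2 with h5 h6
            subst h3 h4
            exact Or.inr (Or.inr (Or.inl ⟨rfl, h5.symm, h6.symm⟩))
          · change Vx.grid a b = _ at h1
            change Vx.grid a (b + 1) = _ at h2
            injection h1 with h3 h4
            injection h2 with h5 h6
            subst h3 h4
            exact Or.inr (Or.inr (Or.inr ⟨rfl, h5.symm, h6.symm⟩))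
          all_goals cases h2
        have h2n : ∀ a b : ZMod N, a = b + 1 → b = a + 1 → False := by
          intro a b h1 h2
          apply h20
          have h3 : a + 1 + 1 = a := by rw [← h2, ← h1]
          have h4 : a + 2 = a := by
            calc a + 2 = a + 1 + 1 := by ring
              _ = a := h3
          simpa using h4
        have h1n : ∀ a b : ZMod N, a = b + 1 → a = b → False := by
          intro a b h1 h2
          rw [h2] at h1
          exact h10 (by simpa using h1.symm)
        rcases key e h with ⟨a1, a2, a3⟩ | ⟨a1, a2, a3⟩ | ⟨a1, a2, a3⟩ | ⟨a1, a2, a3⟩ <;>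
        rcases key e' h' with ⟨b1, b2, b3⟩ | ⟨b1, b2, b3⟩ | ⟨b1, b2, b3⟩ | ⟨b1, b2, b3⟩ <;>
          first
          | exact a1.trans b1.symm
          | exact (h2n _ _ a2 b2).elim
          | exact (h2n _ _ a3 b3).elim
          | exact (h1n _ _ a2 b2).elim
          | exact (h1n _ _ a2 b2.symm).elim
          | exact (h1n _ _ b2 a2).elim
          | exact (h1n _ _ b2 a2.symm).elim
      · exact nbr_unique (Joins.symm h) (Joins.symm h')
    · exact nbr_unique h h'

lemma growth (c : ℝ) (hc : 1 < c) (K : ℕ) :
    ∃ m : ℕ, 1 ≤ m ∧ ((K + (m + m * 3) : ℕ) : ℝ) < c ^ m := by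
  have h0 := tendsto_pow_const_div_const_pow_of_one_lt 0 hc
  have h1 := tendsto_pow_const_div_const_pow_of_one_lt 1 hc
  have h2 := (h0.const_mul (K : ℝ)).add (h1.const_mul (4 : ℝ))
  simp only [mul_zero, add_zero] at h2
  have h3 := (h2.eventually (gt_mem_nhds (zero_lt_one))).and (Filter.eventually_ge_atTop 1)
  obtain ⟨m, hm, hm1⟩ := h3.exists
  refine ⟨m, hm1, ?_⟩
  have hpos : 0 < c ^ m := by positivity
  have h4 : (K : ℝ) * ((m : ℝ) ^ 0 / c ^ m) + 4 * ((m : ℝ) ^ 1 / c ^ m)
      = (K + 4 * m) / c ^ m := by
    field_simp
  rw [h4, div_lt_one hpos] at hm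
  push_cast
  linarith

end Pool.Agent.Results.MP_6bdc24_co.FewPeripheral

open Pool.Agent.Results.MP_6bdc24_co.FewPeripheral in
/-- For every `k` and every `c > 1` there is a finite 3-edge-connected nonplanar graph (even
without loops and parallel edges) that has an embedding in the torus of representativity at least
`k`, but has fewer than `c ^ n` peripheral cycles, where `n` is its number of vertices. -/
theorem Pool.Agent.Results.MP_6bdc24_co.FewPeripheral.result (k : ℕ) (c : ℝ) (hc : 1 < c) :
    ∃ (V E : Type) (_ : Fintype V) (_ : Fintype E) (G : MGraph V E),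
      G.IsSimple ∧ G.ThreeEdgeConnected ∧ G.Nonplanar ∧
      (∃ D : G.Drawing Torus, D.RepAtLeast k) ∧
      ({C | G.IsPeripheral C}.ncard : ℝ) < c ^ Fintype.card V := by
  have : NeZero (k + 3) := ⟨by omega⟩
  obtain ⟨m, hm1, hm⟩ := growth c hc (2 ^ ((k + 3) * (k + 3) + 3))
  refine ⟨Vx (k + 3) m, Ex (k + 3) m, inferInstance, inferInstance, Gr (k + 3) m,
    isSimple (by omega), threeEdgeConnected (by omega), Or.inl (hasK5Minor (by omega)), ?_, ?_⟩
  · obtain ⟨D, hD⟩ := exists_drawing (N := k + 3) (m := m) (by omega)
    refine ⟨D, fun γ h1 h2 => le_trans ?_ (hD γ h1 h2)⟩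
    exact_mod_cast (show k ≤ k + 3 by omega)
  · rw [card_vx]
    have h1 : ({C | (Gr (k + 3) m).IsPeripheral C}.ncard : ℝ) ≤
        ((2 ^ ((k + 3) * (k + 3) + 3) + (m + m * 3) : ℕ) : ℝ) := by
      exact_mod_cast peripheral_ncard (N := k + 3) (m := m)
    refine (h1.trans_lt hm).trans_le ?_
    exact pow_le_pow_right₀ hc.le (by omega)
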